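import Pool.Agent.H27.Had1

set_option autoImplicit false

namespace Pool.Agent.Results.MP_1efffb_co.Cex

open Pool.Agent.H27.Had Finset

/-- Hamming diameter of a subset of the cube -/
noncomputable def diam {m : ℕ} (A : Set (Fin m → ℤˣ)) : ℕ :=
  sSup {d | ∃ x ∈ A, ∃ y ∈ A, hammingDist x y = d}

/-- diametrically maximal -/
def DiamMax {m : ℕ} (A : Set (Fin m → ℤˣ)) : Prop := ∀ x ∉ A, diam A < diam (insert x A)

/-- normalized Hadamard matrix -/
def NormHad {n : ℕ} (H : Matrix (Fin n) (Fin n) ℤˣ) : Prop :=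
  H.map Units.val * (H.map Units.val).transpose = (n : ℤ) • 1 ∧
    (H.map Units.val).transpose * H.map Units.val = (n : ℤ) • 1 ∧
    ∀ i j, i.1 = 0 ∨ j.1 = 0 → H i j = 1

theorem hd {m : ℕ} (x y : Fin m → ℤˣ) :
    2 * (hammingDist x y : ℤ) = m - ∑ i, (x i : ℤ) * y i := by
  have : (m : ℤ) = ∑ _i : Fin m, 1 := by simp
  rw [hammingDist, card_filter, this, ← sum_sub_distrib]
  push_cast
  rw [mul_sum]
  refine sum_congr rfl fun i _ => ?_
  rcases Int.units_eq_one_or (x i) with h | h <;> rcases Int.units_eq_one_or (y i) with h' | h' <;>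
    simp [h, h']

theorem result (n₀ : ℕ) : ∃ m, n₀ ≤ 3 + m ∧ ∃ H : Matrix (Fin (3 + m)) (Fin (3 + m)) ℤˣ,
    NormHad H ∧ ¬ DiamMax (Set.range fun j i => H (Fin.natAdd 3 i) j) := by
  obtain ⟨n, hn, A, -, ⟨a1, a2, a3, a4⟩, -, h1, h2, -⟩ := ex n₀
  obtain ⟨m, rfl⟩ : ∃ m, n = 3 + (m + 1) := ⟨n - 4, by omega⟩
  refine ⟨m + 1, by omega, fun i j => A i j, ⟨?_, ?_, ?_⟩, fun hm => ?_⟩
  · ext i k
    have := a1 i i.2 k k.2
    rw [← Fin.sum_univ_eq_sum_range (fun j => (A i j : ℤ) * A k j)] at this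
    simp only [Matrix.mul_apply, Matrix.map_apply, Matrix.transpose_apply, this, Fin.val_inj,
      Matrix.smul_apply, Matrix.one_apply, smul_eq_mul, mul_ite, mul_one, mul_zero]
  · ext i k
    have := a2 i i.2 k k.2
    rw [← Fin.sum_univ_eq_sum_range (fun j => (A j i : ℤ) * A j k)] at this
    simp only [Matrix.mul_apply, Matrix.map_apply, Matrix.transpose_apply, this, Fin.val_inj,
      Matrix.smul_apply, Matrix.one_apply, smul_eq_mul, mul_ite, mul_one, mul_zero]
  · rintro i j (h | h)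
    · show A i j = 1
      rw [h, a3 j j.2]
    · show A i j = 1
      rw [h, a4 i i.2]
  set c : Fin (3 + (m + 1)) → Fin (m + 1) → ℤˣ := fun j i => A (Fin.natAdd 3 i) j with hc
  have ip : ∀ j l : Fin (3 + (m + 1)), ∑ i, (c j i : ℤ) * c l i =
      (if j.1 = l.1 then ((3 + (m + 1) : ℕ) : ℤ) else 0) - (1 + A 1 j * A 1 l + A 2 j * A 2 l) := by
    intro j l
    rw [← a2 j j.2 l l.2, sum_range_add,
      ← Fin.sum_univ_eq_sum_range (fun i => (A (3 + i) j : ℤ) * A (3 + i) l)]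
    simp [sum_range_succ, a3 j j.2, a3 l l.2, hc]
  let j0 : Fin (3 + (m + 1)) := ⟨4, by omega⟩
  let x : Fin (m + 1) → ℤˣ := Fin.cons 1 fun i => c j0 i.succ
  have ix : ∀ l : Fin (3 + (m + 1)), ∑ i, (x i : ℤ) * c l i =
      ∑ i, (c j0 i : ℤ) * c l i + 2 * A 3 l := by
    intro l
    have e1 : c j0 0 = -1 := h1.2.2
    have e2 : c l 0 = A 3 l := rfl
    simp only [Fin.sum_univ_succ, x, Fin.cons_zero, Fin.cons_succ, e1, e2]
    push_cast
    ring
  have b1 : ∀ l : Fin (3 + (m + 1)), -3 ≤ ∑ i, (x i : ℤ) * c l i ∧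
      ∑ i, (x i : ℤ) * c l i < (m + 1 : ℕ) := by
    intro l
    have hp := h2 l l.2
    have hm : (4 : ℤ) ≤ m := by exact_mod_cast (by omega : 4 ≤ m)
    rw [ix, ip, show A 1 j0 = 1 from h1.1, show A 2 j0 = 1 from h1.2.1]
    split_ifs with h
    · rw [← h, h1.1, h1.2.1, h1.2.2]; push_cast; omega
    · unfold Pat at hp
      rcases Int.units_eq_one_or (A 1 l) with p | p <;>
        rcases Int.units_eq_one_or (A 2 l) with q | q <;>
        rcases Int.units_eq_one_or (A 3 l) with r | r <;>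
        first
          | exact absurd (hp ⟨p, q, r⟩).symm h
          | (rw [p, q, r, Nat.cast_add, Nat.cast_one]
             simp only [Units.val_neg, Units.val_one]; constructor <;> linarith)
  have b2 : ∀ j l : Fin (3 + (m + 1)), -3 ≤ ∑ i, (c j i : ℤ) * c l i := by
    intro j l
    rw [ip]
    have u : ∀ a b : ℤˣ, (a : ℤ) * b ≤ 1 := fun a b => by
      rcases Int.units_eq_one_or a with h | h <;> rcases Int.units_eq_one_or b with h' | h' <;>
        simp [h, h']
    have := u (A 1 j) (A 1 l)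
    have := u (A 2 j) (A 2 l)
    split_ifs <;> omega
  have b3 : ∑ i, (c j0 i : ℤ) * c ⟨0, by omega⟩ i = -3 := by
    rw [ip, show A 1 j0 = 1 from h1.1, show A 2 j0 = 1 from h1.2.1, if_neg (by simp [j0])]
    simp [a4 1 (by omega), a4 2 (by omega)]
  have hx : x ∉ Set.range c := by
    rintro ⟨l, e⟩
    have h3 := hd x (c l)
    have := (b1 l).2
    rw [e, hammingDist_self] at h3
    rw [e] at this
    omega
  refine absurd (hm x hx) (not_lt.2 ?_)
  have h4 : hammingDist (c j0) (c ⟨0, by omega⟩) ≤ diam (Set.range c) :=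
    le_csSup ⟨m + 1, by
      rintro _ ⟨x, -, y, -, rfl⟩
      simpa using hammingDist_le_card_fintype (x := x) (y := y)⟩ ⟨_, ⟨_, rfl⟩, _, ⟨_, rfl⟩, rfl⟩
  refine csSup_le' ?_
  have h5 := hd (c j0) (c ⟨0, by omega⟩)
  rintro _ ⟨y, rfl | ⟨j, rfl⟩, z, rfl | ⟨l, rfl⟩, rfl⟩ <;> refine le_trans ?_ h4
  · simp
  · have := hd x (c l); have := (b1 l).1; omega
  · have := hd x (c j); have := (b1 j).1; rw [hammingDist_comm]; omega
  · have := hd (c j) (c l); have := b2 j l; omega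

end Pool.Agent.Results.MP_1efffb_co.Cex
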